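import Mathlib

/-!
# The difference index can exceed half the sum index by a constant factor

For the complete tripartite graph `K_{1,k,k}` the sum index is at most `2k+1` while the difference
index is at least `3k/2`. Hence every constant `β < 1/2` works in the question.
-/

namespace Pool.Agent.Results.MP_ee2194_co.ConstantFactorExcess

open Finset

/-- The sum index: the least number of distinct values of `f u + f v` over the edges `uv`, the
minimum being over all injective integer labellings. -/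
noncomputable def sumIndex {V : Type} (G : SimpleGraph V) : ℕ :=
  sInf {s : ℕ | ∃ f : V → ℤ, Function.Injective f ∧
    {x : ℤ | ∃ u v, G.Adj u v ∧ x = f u + f v}.ncard = s}

/-- The difference index: the same with `|f u - f v|`. -/
noncomputable def differenceIndex {V : Type} (G : SimpleGraph V) : ℕ :=
  sInf {s : ℕ | ∃ f : V → ℤ, Function.Injective f ∧
    {x : ℤ | ∃ u v, G.Adj u v ∧ x = |f u - f v|}.ncard = s}

/-! ### The combinatorial core -/

theorem card_two {D X Y : Finset ℤ} (t : ℤ) (hX : X ⊆ D) (hY : Y ⊆ D) (hXt : ∀ x ∈ X, t < x)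
    (hYt : ∀ y ∈ Y, y ≤ t) : X.card + Y.card ≤ D.card := by
  have hd : Disjoint X Y := by
    rw [Finset.disjoint_left]
    intro a ha hb
    have := hXt a ha
    have := hYt a hb
    omega
  rw [← Finset.card_union_of_disjoint hd]
  exact Finset.card_le_card (Finset.union_subset hX hY)

/-- The differences that have to be present: between `P` and `Q`, and from `r` to everything. -/
def Has (P Q : Finset ℤ) (r : ℤ) (D : Finset ℤ) : Prop :=
  (∀ p ∈ P, ∀ q ∈ Q, |p - q| ∈ D) ∧ (∀ p ∈ P, |p - r| ∈ D) ∧ (∀ q ∈ Q, |q - r| ∈ D)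

theorem Has.swap {P Q : Finset ℤ} {r : ℤ} {D : Finset ℤ} (h : Has P Q r D) : Has Q P r D :=
  ⟨fun q hq p hp => by rw [abs_sub_comm]; exact h.1 p hp q hq, h.2.2, h.2.1⟩

/-- elements below `r` -/
def lo (P : Finset ℤ) (r : ℤ) : Finset ℤ := P.filter fun x => x < r
/-- elements above `r` -/
def hi (P : Finset ℤ) (r : ℤ) : Finset ℤ := P.filter fun x => r < x

theorem mem_lo {P : Finset ℤ} {r x : ℤ} : x ∈ lo P r ↔ x ∈ P ∧ x < r := Finset.mem_filter
theorem mem_hi {P : Finset ℤ} {r x : ℤ} : x ∈ hi P r ↔ x ∈ P ∧ r < x := Finset.mem_filter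

theorem lo_add_hi {P : Finset ℤ} {r : ℤ} (hr : r ∉ P) : (lo P r).card + (hi P r).card = P.card := by
  have h : hi P r = P.filter fun x => ¬ x < r := by
    ext x
    rw [mem_hi, Finset.mem_filter]
    refine ⟨fun h => ⟨h.1, by omega⟩, fun h => ⟨h.1, ?_⟩⟩
    have : x ≠ r := fun he => hr (he ▸ h.1)
    omega
  rw [h, lo]
  exact Finset.card_filter_add_card_filter_not _

theorem card_image_sub (A : Finset ℤ) (c : ℤ) : (A.image fun x => c - x).card = A.card :=
  Finset.card_image_of_injective _ fun a b h => by simpa using h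

theorem card_image_sub' (A : Finset ℤ) (c : ℤ) : (A.image fun x => x - c).card = A.card :=
  Finset.card_image_of_injective _ fun a b h => by simpa using h

/-- First chain: fix the largest element. -/
theorem chain1 {P Q : Finset ℤ} {r : ℤ} {D : Finset ℤ} (h : Has P Q r D) (hPQ : Disjoint P Q)
    {y : ℤ} (hy : y ∈ Q) (hry : r < y) (hP : ∀ p ∈ P, p ≤ y) (hQ : ∀ q ∈ Q, q ≤ y) :
    (lo P r).card + ((hi P r).card + (hi Q r).card) ≤ D.card := by
  have hd : Disjoint (hi P r) (hi Q r) :=
    Finset.disjoint_of_subset_left (Finset.filter_subset _ _)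
      (Finset.disjoint_of_subset_right (Finset.filter_subset _ _) hPQ)
  have := card_two (D := D) (X := (lo P r).image fun x => y - x)
    (Y := (hi P r ∪ hi Q r).image fun x => x - r) (y - r) ?_ ?_ ?_ ?_
  · rw [card_image_sub, card_image_sub', Finset.card_union_of_disjoint hd] at this
    exact this
  · intro d hd
    obtain ⟨x, hx, rfl⟩ := Finset.mem_image.1 hd
    rw [mem_lo] at hx
    have h1 := h.1 x hx.1 y hy
    rwa [abs_sub_comm, abs_of_pos (by omega)] at h1
  · intro d hd
    obtain ⟨x, hx, rfl⟩ := Finset.mem_image.1 hd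
    rcases Finset.mem_union.1 hx with hx | hx
    · rw [mem_hi] at hx
      have h1 := h.2.1 x hx.1
      rwa [abs_of_pos (by omega)] at h1
    · rw [mem_hi] at hx
      have h1 := h.2.2 x hx.1
      rwa [abs_of_pos (by omega)] at h1
  · intro d hd
    obtain ⟨x, hx, rfl⟩ := Finset.mem_image.1 hd
    rw [mem_lo] at hx
    omega
  · intro d hd
    obtain ⟨x, hx, rfl⟩ := Finset.mem_image.1 hd
    rcases Finset.mem_union.1 hx with hx | hx
    · rw [mem_hi] at hx
      have := hP x hx.1
      omega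
    · rw [mem_hi] at hx
      have := hQ x hx.1
      omega

/-- Second chain: fix the largest element until the smallest element of the same class, then fix
the latter. -/
theorem chain2 {P Q : Finset ℤ} {r : ℤ} {D : Finset ℤ} (h : Has P Q r D) (hPQ : Disjoint P Q)
    {y : ℤ} (hy : y ∈ Q) (hry : r < y) (hP : ∀ p ∈ P, p ≤ y) (hQ : ∀ q ∈ Q, q ≤ y) :
    (lo P r).card + (lo Q r).card + (hi P r).card ≤ D.card := by
  by_cases hne : (lo Q r).Nonempty
  · obtain ⟨x₀, hx₀, hmin⟩ := Finset.exists_min_image (lo Q r) (fun x => x) hne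
    rw [mem_lo] at hx₀
    have hPy : ∀ p ∈ P, p < y := fun p hp =>
      lt_of_le_of_ne (hP p hp) fun he => (Finset.disjoint_left.1 hPQ hp) (he ▸ hy)
    have hPx : ∀ p ∈ P, p ≠ x₀ := fun p hp he => (Finset.disjoint_left.1 hPQ hp) (he ▸ hx₀.1)
    -- the elements of `lo P r` below / above `x₀`
    have hsplit : ((lo P r).filter fun x => x < x₀).card +
        ((lo P r).filter fun x => ¬ x < x₀).card = (lo P r).card :=
      Finset.card_filter_add_card_filter_not _
    have hd : Disjoint ((lo P r).filter fun x => ¬ x < x₀) (lo Q r) :=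
      Finset.disjoint_of_subset_left ((Finset.filter_subset _ _).trans (Finset.filter_subset _ _))
        (Finset.disjoint_of_subset_right (Finset.filter_subset _ _) hPQ)
    -- the two lower layers
    have low := card_two (D := D.filter fun d => d ≤ y - x₀ - 1)
      (X := (hi P r).image fun x => x - x₀)
      (Y := (((lo P r).filter fun x => ¬ x < x₀) ∪ lo Q r).image fun x => r - x) (r - x₀)
      ?_ ?_ ?_ ?_
    · rw [card_image_sub, card_image_sub', Finset.card_union_of_disjoint hd] at low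
      have high := card_two (D := D) (X := ((lo P r).filter fun x => x < x₀).image fun x => y - x)
        (Y := D.filter fun d => d ≤ y - x₀ - 1) (y - x₀ - 1) ?_ (Finset.filter_subset _ _) ?_ ?_
      · rw [card_image_sub] at high
        omega
      · intro d hd
        obtain ⟨x, hx, rfl⟩ := Finset.mem_image.1 hd
        rw [Finset.mem_filter, mem_lo] at hx
        have h1 := h.1 x hx.1.1 y hy
        rwa [abs_sub_comm, abs_of_pos (by omega)] at h1
      · intro d hd
        obtain ⟨x, hx, rfl⟩ := Finset.mem_image.1 hd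
        rw [Finset.mem_filter, mem_lo] at hx
        omega
      · intro d hd
        exact (Finset.mem_filter.1 hd).2
    · intro d hd
      obtain ⟨x, hx, rfl⟩ := Finset.mem_image.1 hd
      rw [mem_hi] at hx
      have h1 := h.1 x hx.1 x₀ hx₀.1
      rw [abs_of_pos (by omega)] at h1
      rw [Finset.mem_filter]
      have := hPy x hx.1
      exact ⟨h1, by omega⟩
    · intro d hd
      obtain ⟨x, hx, rfl⟩ := Finset.mem_image.1 hd
      rw [Finset.mem_filter]
      rcases Finset.mem_union.1 hx with hx | hx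
      · rw [Finset.mem_filter, mem_lo] at hx
        have h1 := h.2.1 x hx.1.1
        rw [abs_sub_comm, abs_of_pos (by omega)] at h1
        exact ⟨h1, by omega⟩
      · have hm := hmin x hx
        rw [mem_lo] at hx
        have h1 := h.2.2 x hx.1
        rw [abs_sub_comm, abs_of_pos (by omega)] at h1
        exact ⟨h1, by omega⟩
    · intro d hd
      obtain ⟨x, hx, rfl⟩ := Finset.mem_image.1 hd
      rw [mem_hi] at hx
      omega
    · intro d hd
      obtain ⟨x, hx, rfl⟩ := Finset.mem_image.1 hd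
      rcases Finset.mem_union.1 hx with hx | hx
      · rw [Finset.mem_filter] at hx
        omega
      · have hm := hmin x hx
        omega
  · rw [Finset.not_nonempty_iff_eq_empty] at hne
    have := chain1 h hPQ hy hry hP hQ
    rw [hne, Finset.card_empty]
    omega

/-- reflection -/
def neg (P : Finset ℤ) : Finset ℤ := P.image fun x => -x

theorem mem_neg {P : Finset ℤ} {x : ℤ} : x ∈ neg P ↔ -x ∈ P := by
  unfold neg
  rw [Finset.mem_image]
  exact ⟨fun ⟨a, ha, hax⟩ => by rw [← hax, neg_neg]; exact ha, fun h => ⟨-x, h, neg_neg x⟩⟩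

theorem Has.neg {P Q : Finset ℤ} {r : ℤ} {D : Finset ℤ} (h : Has P Q r D) :
    Has (neg P) (neg Q) (-r) D := by
  refine ⟨fun p hp q hq => ?_, fun p hp => ?_, fun q hq => ?_⟩
  · have := h.1 _ (mem_neg.1 hp) _ (mem_neg.1 hq)
    rw [abs_sub_comm] at this
    convert this using 2
    ring
  · have := h.2.1 _ (mem_neg.1 hp)
    rw [abs_sub_comm] at this
    convert this using 2
    ring
  · have := h.2.2 _ (mem_neg.1 hq)
    rw [abs_sub_comm] at this
    convert this using 2
    ring

theorem card_lo_neg (P : Finset ℤ) (r : ℤ) : (lo (neg P) (-r)).card = (hi P r).card := by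
  have : lo (neg P) (-r) = (hi P r).image fun x => 0 - x := by
    ext x
    rw [mem_lo, mem_neg, Finset.mem_image]
    constructor
    · rintro ⟨h1, h2⟩
      exact ⟨-x, mem_hi.2 ⟨h1, by omega⟩, by ring⟩
    · rintro ⟨y, hy, rfl⟩
      rw [mem_hi] at hy
      refine ⟨?_, by omega⟩
      have : -(0 - y) = y := by ring
      rw [this]; exact hy.1
  rw [this, card_image_sub]

theorem card_hi_neg (P : Finset ℤ) (r : ℤ) : (hi (neg P) (-r)).card = (lo P r).card := by
  have : hi (neg P) (-r) = (lo P r).image fun x => 0 - x := by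
    ext x
    rw [mem_hi, mem_neg, Finset.mem_image]
    constructor
    · rintro ⟨h1, h2⟩
      exact ⟨-x, mem_lo.2 ⟨h1, by omega⟩, by ring⟩
    · rintro ⟨y, hy, rfl⟩
      rw [mem_lo] at hy
      refine ⟨?_, by omega⟩
      have : -(0 - y) = y := by ring
      rw [this]; exact hy.1
  rw [this, card_image_sub]

theorem disjoint_neg {P Q : Finset ℤ} (h : Disjoint P Q) : Disjoint (neg P) (neg Q) := by
  rw [Finset.disjoint_left] at h ⊢
  intro x hx hx'
  exact h (mem_neg.1 hx) (mem_neg.1 hx')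

/-- Everything on one side of `r`. -/
theorem one_side {P Q : Finset ℤ} {r : ℤ} {D : Finset ℤ} (h : Has P Q r D) (hPQ : Disjoint P Q)
    (hlt : ∀ x ∈ P ∪ Q, x < r) : P.card + Q.card ≤ D.card := by
  rw [← Finset.card_union_of_disjoint hPQ, ← card_image_sub (P ∪ Q) r]
  refine Finset.card_le_card fun d hd => ?_
  obtain ⟨x, hx, rfl⟩ := Finset.mem_image.1 hd
  have hx' := hlt x hx
  rcases Finset.mem_union.1 hx with hx | hx
  · have h1 := h.2.1 x hx
    rwa [abs_sub_comm, abs_of_pos (by omega)] at h1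
  · have h1 := h.2.2 x hx
    rwa [abs_sub_comm, abs_of_pos (by omega)] at h1

/-- The main bound when the largest element is in `Q`. -/
theorem core_aux {P Q : Finset ℤ} {r : ℤ} {D : Finset ℤ} {k : ℕ} (h : Has P Q r D)
    (hPQ : Disjoint P Q) (hP : P.card = k) (hQ : Q.card = k) (hrP : r ∉ P) (hrQ : r ∉ Q)
    {y : ℤ} (hy : y ∈ Q) (hmax : ∀ x ∈ P ∪ Q, x ≤ y) : 3 * k ≤ 2 * D.card := by
  have hne : (P ∪ Q).Nonempty := ⟨y, Finset.mem_union_right _ hy⟩
  obtain ⟨x, hx, hmin⟩ := Finset.exists_min_image (P ∪ Q) (fun x => x) hne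
  have ry : r ≠ y := fun he => hrQ (he ▸ hy)
  have rx : r ≠ x := fun he => by
    rcases Finset.mem_union.1 hx with hx | hx
    · exact hrP (he ▸ hx)
    · exact hrQ (he ▸ hx)
  by_cases h1 : y < r
  · have := one_side h hPQ fun z hz => lt_of_le_of_lt (hmax z hz) h1
    omega
  by_cases h2 : r < x
  · have := one_side h.neg (disjoint_neg hPQ) (fun z hz => by
      have hz' : -z ∈ P ∪ Q := by
        rcases Finset.mem_union.1 hz with hz | hz
        · exact Finset.mem_union_left _ (mem_neg.1 hz)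
        · exact Finset.mem_union_right _ (mem_neg.1 hz)
      have := hmin _ hz'
      omega)
    have e1 : (neg P).card = P.card := Finset.card_image_of_injective _ neg_injective
    have e2 : (neg Q).card = Q.card := Finset.card_image_of_injective _ neg_injective
    omega
  have hry : r < y := by omega
  have hxr : x < r := by omega
  have lP := lo_add_hi hrP
  have lQ := lo_add_hi hrQ
  have mP : ∀ p ∈ P, p ≤ y := fun p hp => hmax p (Finset.mem_union_left _ hp)
  have mQ : ∀ q ∈ Q, q ≤ y := fun q hq => hmax q (Finset.mem_union_right _ hq)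
  have c1 := chain1 h hPQ hy hry mP mQ
  have nP : ∀ p ∈ neg P, p ≤ -x := fun p hp => by
    have := hmin _ (Finset.mem_union_left _ (mem_neg.1 hp))
    omega
  have nQ : ∀ p ∈ neg Q, p ≤ -x := fun p hp => by
    have := hmin _ (Finset.mem_union_right _ (mem_neg.1 hp))
    omega
  rcases Finset.mem_union.1 hx with hxP | hxQ
  · -- the smallest element is in `P`
    have c2 := chain2 h hPQ hy hry mP mQ
    have hxn : -x ∈ neg P := mem_neg.2 (by rw [neg_neg]; exact hxP)
    have c3 := chain1 h.neg.swap (disjoint_neg hPQ).symm hxn (by omega) nQ nP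
    have c4 := chain2 h.neg.swap (disjoint_neg hPQ).symm hxn (by omega) nQ nP
    rw [card_lo_neg, card_hi_neg, card_hi_neg] at c3
    rw [card_lo_neg, card_hi_neg, card_lo_neg] at c4
    omega
  · have hxn : -x ∈ neg Q := mem_neg.2 (by rw [neg_neg]; exact hxQ)
    have c3 := chain1 h.neg (disjoint_neg hPQ) hxn (by omega) nP nQ
    rw [card_lo_neg, card_hi_neg, card_hi_neg] at c3
    omega

theorem core {P Q : Finset ℤ} {r : ℤ} {D : Finset ℤ} {k : ℕ} (h : Has P Q r D)
    (hPQ : Disjoint P Q) (hP : P.card = k) (hQ : Q.card = k) (hrP : r ∉ P) (hrQ : r ∉ Q) :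
    3 * k ≤ 2 * D.card := by
  rcases Nat.eq_zero_or_pos k with rfl | hk
  · simp
  have hne : (P ∪ Q).Nonempty := by
    have : P.Nonempty := Finset.card_pos.1 (by omega)
    exact this.mono Finset.subset_union_left
  obtain ⟨y, hy, hmax⟩ := Finset.exists_max_image (P ∪ Q) (fun x => x) hne
  rcases Finset.mem_union.1 hy with hyP | hyQ
  · exact core_aux h.swap hPQ.symm hQ hP hrQ hrP hyP (by rw [Finset.union_comm]; exact hmax)
  · exact core_aux h hPQ hP hQ hrP hrQ hyQ hmax

/-! ### The graph `K_{1,k,k}` -/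

/-- The class of a vertex. -/
def cls (k : ℕ) (i : Fin (2 * k + 1)) : ℕ := if (i : ℕ) < k then 0 else if (i : ℕ) = k then 1 else 2

/-- The complete tripartite graph `K_{1,k,k}`. -/
def K (k : ℕ) : SimpleGraph (Fin (2 * k + 1)) where
  Adj i j := cls k i ≠ cls k j
  symm := ⟨fun _ _ h => Ne.symm h⟩
  loopless := ⟨fun _ h => h rfl⟩

theorem K_ne_bot {k : ℕ} (hk : 1 ≤ k) : K k ≠ ⊥ := by
  intro h
  have h1 : (K k).Adj ⟨0, by omega⟩ ⟨k, by omega⟩ := by
    show cls k _ ≠ cls k _
    have h0 : cls k ⟨0, by omega⟩ = 0 := if_pos (by show 0 < k; omega)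
    have h1 : cls k ⟨k, by omega⟩ = 1 := by simp [cls]
    rw [h0, h1]
    norm_num
  rw [h] at h1
  exact h1

/-- The labelling by consecutive integers. -/
def lab {n : ℕ} (i : Fin n) : ℤ := ((i : ℕ) : ℤ)

theorem lab_inj {n : ℕ} : Function.Injective (lab : Fin n → ℤ) := fun i j h => by
  have h' : ((i : ℕ) : ℤ) = ((j : ℕ) : ℤ) := h
  exact Fin.ext (by exact_mod_cast h')

theorem sum_le (k : ℕ) : sumIndex (K k) ≤ 2 * k + 1 := by
  have hmem : {x : ℤ | ∃ u v, (K k).Adj u v ∧ x = lab u + lab v}.ncard ∈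
      {s : ℕ | ∃ f : Fin (2 * k + 1) → ℤ, Function.Injective f ∧
        {x : ℤ | ∃ u v, (K k).Adj u v ∧ x = f u + f v}.ncard = s} :=
    ⟨lab, lab_inj, rfl⟩
  refine (Nat.sInf_le hmem).trans ?_
  have hsub : {x : ℤ | ∃ u v, (K k).Adj u v ∧ x = lab u + lab v} ⊆
      ((Finset.Icc (k : ℤ) (3 * k) : Finset ℤ) : Set ℤ) := by
    rintro x ⟨u, v, huv, rfl⟩
    have h : cls k u ≠ cls k v := huv
    have hu := u.2
    have hv := v.2
    rw [Finset.mem_coe, Finset.mem_Icc]
    simp only [lab]
    simp only [cls] at h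
    split_ifs at h <;> omega
  refine (Set.ncard_le_ncard hsub (Finset.finite_toSet _)).trans ?_
  rw [Set.ncard_coe_finset, Int.card_Icc]
  omega

theorem finite_vals {n : ℕ} (G : SimpleGraph (Fin n)) (F : Fin n → Fin n → ℤ) :
    {x : ℤ | ∃ u v, G.Adj u v ∧ x = F u v}.Finite := by
  refine (Set.finite_range fun p : Fin n × Fin n => F p.1 p.2).subset ?_
  rintro x ⟨u, v, -, rfl⟩
  exact ⟨(u, v), rfl⟩

theorem sum_ge (k : ℕ) : 2 * k ≤ sumIndex (K k) := by
  have hne : {s : ℕ | ∃ f : Fin (2 * k + 1) → ℤ, Function.Injective f ∧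
        {x : ℤ | ∃ u v, (K k).Adj u v ∧ x = f u + f v}.ncard = s}.Nonempty :=
    ⟨_, lab, lab_inj, rfl⟩
  obtain ⟨f, hf, hs⟩ := Nat.sInf_mem hne
  rw [sumIndex, ← hs]
  let c : Fin (2 * k + 1) := ⟨k, by omega⟩
  have hcard : (((Finset.univ.erase c).image fun v => f c + f v : Finset ℤ)).card = 2 * k := by
    rw [Finset.card_image_of_injective _ (fun a b h => hf (by simpa using h)),
      Finset.card_erase_of_mem (Finset.mem_univ _), Finset.card_univ, Fintype.card_fin]
    omega
  refine hcard.symm.le.trans ?_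
  rw [← Set.ncard_coe_finset]
  refine Set.ncard_le_ncard ?_ (finite_vals _ _)
  intro x hx
  obtain ⟨v, hv, rfl⟩ := Finset.mem_image.1 (Finset.mem_coe.1 hx)
  refine ⟨c, v, ?_, rfl⟩
  have hvc : (v : ℕ) ≠ k := fun he => (Finset.mem_erase.1 hv).1 (Fin.ext he)
  show cls k c ≠ cls k v
  have : cls k c = 1 := by simp [cls, c]
  rw [this]
  simp only [cls]
  split_ifs <;> norm_num

theorem diff_ge (k : ℕ) : 3 * k ≤ 2 * differenceIndex (K k) := by
  have hne : {s : ℕ | ∃ f : Fin (2 * k + 1) → ℤ, Function.Injective f ∧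
        {x : ℤ | ∃ u v, (K k).Adj u v ∧ x = |f u - f v|}.ncard = s}.Nonempty :=
    ⟨_, lab, lab_inj, rfl⟩
  obtain ⟨f, hf, hs⟩ := Nat.sInf_mem hne
  rw [differenceIndex, ← hs]
  have hfin := finite_vals (K k) fun u v => |f u - f v|
  rw [Set.ncard_eq_toFinset_card _ hfin]
  let c : Fin (2 * k + 1) := ⟨k, by omega⟩
  let P : Finset ℤ := (Finset.univ : Finset (Fin k)).image fun i : Fin k => f ⟨(i : ℕ), by omega⟩
  let Q : Finset ℤ := (Finset.univ : Finset (Fin k)).image
    fun i : Fin k => f ⟨k + 1 + (i : ℕ), by omega⟩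
  have clP : ∀ i : Fin k, cls k ⟨(i : ℕ), by omega⟩ = 0 := fun i => by
    simp only [cls]; rw [if_pos i.2]
  have clc : cls k c = 1 := by simp [cls, c]
  have clQ : ∀ i : Fin k, cls k ⟨k + 1 + (i : ℕ), by omega⟩ = 2 := fun i => by
    simp only [cls]; rw [if_neg (by omega), if_neg (by omega)]
  refine core (P := P) (Q := Q) (r := f c) ⟨?_, ?_, ?_⟩ ?_ ?_ ?_ ?_ ?_
  · intro p hp q hq
    obtain ⟨i, -, rfl⟩ := Finset.mem_image.1 hp
    obtain ⟨j, -, rfl⟩ := Finset.mem_image.1 hq
    rw [Set.Finite.mem_toFinset]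
    exact ⟨_, _, show cls k _ ≠ cls k _ by rw [clP, clQ]; norm_num, rfl⟩
  · intro p hp
    obtain ⟨i, -, rfl⟩ := Finset.mem_image.1 hp
    rw [Set.Finite.mem_toFinset]
    exact ⟨_, _, show cls k _ ≠ cls k _ by rw [clP, clc]; norm_num, rfl⟩
  · intro p hp
    obtain ⟨i, -, rfl⟩ := Finset.mem_image.1 hp
    rw [Set.Finite.mem_toFinset]
    exact ⟨_, _, show cls k _ ≠ cls k _ by rw [clQ, clc]; norm_num, rfl⟩
  · rw [Finset.disjoint_left]
    intro x hx hx'
    obtain ⟨i, -, hi⟩ := Finset.mem_image.1 hx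
    obtain ⟨j, -, hj⟩ := Finset.mem_image.1 hx'
    have := hf (hi.trans hj.symm)
    have h2 : (i : ℕ) = k + 1 + j := congrArg Fin.val this
    omega
  · show (Finset.image _ _).card = k
    rw [Finset.card_image_of_injective _ fun i j hij => ?_, Finset.card_univ, Fintype.card_fin]
    have h3 := hf hij
    rw [Fin.mk.injEq] at h3
    exact Fin.ext h3
  · show (Finset.image _ _).card = k
    rw [Finset.card_image_of_injective _ fun i j hij => ?_, Finset.card_univ, Fintype.card_fin]
    have h2 : k + 1 + (i : ℕ) = k + 1 + (j : ℕ) := congrArg Fin.val (hf hij)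
    exact Fin.ext (by omega)
  · intro hx
    obtain ⟨i, -, hi⟩ := Finset.mem_image.1 hx
    have h2 : (i : ℕ) = k := congrArg Fin.val (hf hi)
    omega
  · intro hx
    obtain ⟨i, -, hi⟩ := Finset.mem_image.1 hx
    have h2 : k + 1 + (i : ℕ) = k := congrArg Fin.val (hf hi)
    omega

/-- For every `β < 1/2` there are graphs with arbitrarily large sum index whose difference index is
at least `(1 + β)` times half the sum index (rounded up). -/
theorem result :
    ∀ β : ℝ, β < 1 / 2 → ∀ N : ℕ, ∃ (n : ℕ) (G : SimpleGraph (Fin n)), G ≠ ⊥ ∧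
      N ≤ sumIndex G ∧
      (1 + β) * (⌈(sumIndex G : ℝ) / 2⌉ : ℝ) ≤ (differenceIndex G : ℝ) := by
  intro β hβ N
  -- choose `k` large
  obtain ⟨k₀, hk₀⟩ := exists_nat_gt ((1 + |β|) / (1 / 2 - β))
  let k := k₀ + N + 1
  have hk : (1 + |β|) / (1 / 2 - β) < (k : ℝ) := by
    refine hk₀.trans ?_
    exact_mod_cast (show k₀ < k₀ + N + 1 by omega)
  refine ⟨2 * k + 1, K k, K_ne_bot (by omega), ?_, ?_⟩
  · have := sum_ge k
    omega
  · have h1 := sum_le k
    have h2 := diff_ge k
    have h3 : (⌈(sumIndex (K k) : ℝ) / 2⌉ : ℝ) ≤ k + 1 := by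
      have : ⌈(sumIndex (K k) : ℝ) / 2⌉ ≤ (k : ℤ) + 1 := by
        rw [Int.ceil_le]
        have h4 : (sumIndex (K k) : ℝ) ≤ 2 * k + 1 := by exact_mod_cast h1
        push_cast
        linarith
      exact_mod_cast this
    have h4 : (3 * k : ℝ) ≤ 2 * (differenceIndex (K k) : ℝ) := by exact_mod_cast h2
    have hpos : 0 < 1 / 2 - β := by linarith
    rw [div_lt_iff₀ hpos] at hk
    have h5 : β ≤ |β| := le_abs_self β
    have h0 : (0 : ℝ) ≤ (⌈(sumIndex (K k) : ℝ) / 2⌉ : ℝ) := by
      have : (0 : ℤ) ≤ ⌈(sumIndex (K k) : ℝ) / 2⌉ := Int.ceil_nonneg (by positivity)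
      exact_mod_cast this
    rcases le_or_gt 0 (1 + β) with hb | hb
    · have h6 := mul_le_mul_of_nonneg_left h3 hb
      nlinarith
    · have h7 : (1 + β) * (⌈(sumIndex (K k) : ℝ) / 2⌉ : ℝ) ≤ 0 :=
        mul_nonpos_of_nonpos_of_nonneg hb.le h0
      have h8 : (0 : ℝ) ≤ (differenceIndex (K k) : ℝ) := Nat.cast_nonneg _
      linarith

end Pool.Agent.Results.MP_ee2194_co.ConstantFactorExcess
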